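import Pool.Agent.H987.Y.StB

/-! Task Y-H2 (helper825): the limit of the bounds. -/

set_option autoImplicit false
set_option linter.unusedSectionVars false

open scoped BigOperators InnerProductSpace Topology
open Filter MeasureTheory

namespace Pool.Agent.H825.Y987

open Pool.Agent.H987.Y
open Pool.Agent.Y662.TR (LL Cf Mw dv hu clp hu_nonneg clp_cont bdd_int_real)
open Pool.Agent.TH369.AN (Rz)
open Pool.Agent.H987.Z (Rs Gr Fr gZ HV S_green)

/-! ### the product measure and injections (copied from `Pool.Agent.H582.Z987.Rst`) -/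

theorem map_inj {A B : Type} (σ : A → B) (hσ : Function.Injective σ) (ν : Measure ℝ)
    [IsProbabilityMeasure ν] :
    (Measure.infinitePi fun _ : B => ν).map (fun V : B → ℝ => fun a => V (σ a)) =
      Measure.infinitePi fun _ : A => ν := by
  classical
  have hm : Measurable fun V : B → ℝ => fun a => V (σ a) :=
    measurable_pi_lambda _ fun a => measurable_pi_apply _
  refine Measure.eq_infinitePi _ fun s t ht => ?_
  rw [Measure.map_apply hm (MeasurableSet.pi s.countable_toSet fun i _ => ht i)]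
  obtain ⟨t', ht'⟩ : ∃ t' : B → Set ℝ, t' = fun v => if h : ∃ a, σ a = v then t h.choose
      else Set.univ := ⟨_, rfl⟩
  have e1 : ∀ a, t' (σ a) = t a := by
    intro a
    have h : ∃ a', σ a' = σ a := ⟨a, rfl⟩
    rw [ht']
    simp only
    rw [dif_pos h, hσ h.choose_spec]
  have e2 : (fun V : B → ℝ => fun a => V (σ a)) ⁻¹' (Set.pi s t) =
      Set.pi ((s.image σ : Finset B) : Set B) t' := by
    ext V
    simp only [Set.mem_preimage, Set.mem_pi, Finset.coe_image, Set.mem_image,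
      Finset.mem_coe, forall_exists_index, and_imp, forall_apply_eq_imp_iff₂]
    exact forall_congr' fun a => by rw [e1]
  rw [e2, Measure.infinitePi_pi _ (fun v _ => ?_), Finset.prod_image (fun a _ b _ h => hσ h)]
  · exact Finset.prod_congr rfl fun a _ => by rw [e1]
  · rw [ht']
    simp only
    split_ifs with h
    · exact ht _
    · exact MeasurableSet.univ

/-! ### bounded random variables in the upper half-plane (copied from `Pool.Agent.H987.Z.D1`) -/

theorem hu_meas {Ω : Type} [MeasurableSpace Ω] {f : Ω → ℂ} (hf : Measurable f) (g : ℂ) :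
    Measurable fun ω => hu (f ω) g := by
  unfold hu
  exact ((hf.sub_const g).norm.pow_const 2).div
    ((Complex.measurable_im.comp hf).mul_const g.im)

theorem hu_bd {a g : ℂ} {K κ : ℝ} (hκ : 0 < κ) (hK : ‖a‖ ≤ K) (ha : κ ≤ a.im) (hg : 0 < g.im) :
    0 ≤ hu a g ∧ hu a g ≤ (K + ‖g‖) ^ 2 / (κ * g.im) := by
  have ha0 : 0 < a.im := hκ.trans_le ha
  refine ⟨hu_nonneg ha0 hg, ?_⟩
  unfold hu
  have h1 : ‖a - g‖ ≤ K + ‖g‖ := (norm_sub_le _ _).trans (by linarith)
  gcongr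

/-- the data of a bounded random variable in the upper half-plane -/
structure Bd {Ω : Type} [MeasurableSpace Ω] (X : Ω → ℂ) (K κ : ℝ) : Prop where
  me : Measurable X
  K : ∀ ω, ‖X ω‖ ≤ K
  κ0 : 0 < κ
  κ : ∀ ω, κ ≤ (X ω).im

theorem Bd.hu0 {Ω : Type} [MeasurableSpace Ω] {X : Ω → ℂ} {K κ : ℝ} (h : Bd X K κ) {g : ℂ}
    (hg : 0 < g.im) (ω : Ω) : 0 ≤ hu (X ω) g := (hu_bd h.κ0 (h.K ω) (h.κ ω) hg).1

theorem Bd.hu1 {Ω : Type} [MeasurableSpace Ω] {X : Ω → ℂ} {K κ : ℝ} (h : Bd X K κ) {g : ℂ}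
    (hg : 0 < g.im) (ω : Ω) : hu (X ω) g ≤ (K + ‖g‖) ^ 2 / (κ * g.im) :=
  (hu_bd h.κ0 (h.K ω) (h.κ ω) hg).2

theorem Bd.sq_le {Ω : Type} [MeasurableSpace Ω] {X : Ω → ℂ} {K κ : ℝ} (h : Bd X K κ) {g : ℂ}
    (hg : 0 < g.im) (ω : Ω) : ‖hu (X ω) g ^ 2‖ ≤ ((K + ‖g‖) ^ 2 / (κ * g.im)) ^ 2 := by
  rw [Real.norm_of_nonneg (sq_nonneg _)]
  exact pow_le_pow_left₀ (h.hu0 hg ω) (h.hu1 hg ω) 2

theorem Bd.int2 {Ω : Type} [MeasurableSpace Ω] {X : Ω → ℂ} {K κ : ℝ} (h : Bd X K κ) {g : ℂ}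
    (hg : 0 < g.im) (P : Measure Ω) [IsFiniteMeasure P] :
    Integrable (fun ω => hu (X ω) g ^ 2) P := by
  refine Integrable.of_bound ((hu_meas h.me g).pow_const 2).aestronglyMeasurable
    (((K + ‖g‖) ^ 2 / (κ * g.im)) ^ 2) (ae_of_all _ fun ω => h.sq_le hg ω)

theorem Bd.comp {Ω Ω' : Type} [MeasurableSpace Ω] [MeasurableSpace Ω'] {X : Ω → ℂ} {K κ : ℝ}
    (h : Bd X K κ) {f : Ω' → Ω} (hf : Measurable f) : Bd (fun ω => X (f ω)) K κ :=
  ⟨h.me.comp hf, fun _ => h.K _, h.κ0, fun _ => h.κ _⟩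

theorem bd_op (hop : S_op) (hme : S_meas) (hg : S_green) {ι Ω : Type} [Countable ι]
    [MeasurableSpace Ω] (k : Ω → ι → ι → ℝ) (h : ℝ) (hh : 0 ≤ h) (hk : ∀ ω, Ker h (k ω))
    (hm : ∀ x y, Measurable fun ω => k ω x y) (z : ℂ) (hz : 0 < z.im) (x : ι) :
    Bd (fun ω => Gr (Op (k ω)) z x x) (1 / z.im) (z.im / (h + ‖z‖) ^ 2) := by
  have hz1 : 0 < ‖z‖ := hz.trans_le (Complex.im_le_norm z)
  refine ⟨hme ι Ω k h hk hm z x x hz.ne', fun ω => ?_, by positivity, fun ω => ?_⟩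
  · exact (hg ι (Op (k ω)) (hop ι (k ω) h (hk ω)).2.2.1).2.2.2.2.1 z x x hz
  · exact (hg ι (Op (k ω)) (hop ι (k ω) h (hk ω)).2.2.1).2.2.2.1 z x h hz
      (hop ι (k ω) h (hk ω)).2.1

theorem ker_mono {ι : Type} {k : ι → ι → ℝ} {h h' : ℝ} (H : Ker h k) (hh : h ≤ h') : Ker h' k :=
  ⟨H.h0.trans hh, H.sy, H.sm, fun x => (H.le x).trans hh⟩

theorem dg_shift {d : ℕ} (V : Lt d → ℝ) (x a b : Lt d) :
    dg V (a + x) (b + x) = dg (fun y => V (y + x)) a b := by
  unfold dg
  by_cases h : a = b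
  · rw [if_pos h, if_pos (by rw [h])]
  · rw [if_neg h, if_neg (fun h' => h (add_right_cancel h'))]

theorem dg_meas {ι : Type} (x y : ι) : Measurable fun V : ι → ℝ => dg V x y := by
  unfold dg
  by_cases h : x = y
  · simp only [if_pos h]
    exact (clp_cont 1).measurable.comp (measurable_pi_apply x)
  · simp only [if_neg h]
    exact measurable_const

theorem hullB (hA : S_hullA) (hdig : S_dig) (heqv : S_eqv) (hme : S_meas) (hop : S_op)
    (hgr : S_green) (hsep : S_sep) : Pool.Agent.H987.Y.S_hullB := by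
  intro d Q A b R hQ hN hb ν _ z g e hz hg hE x
  obtain ⟨-, A2, A3, A4, A5, -⟩ := hA d Q A b R hQ hN hb
  obtain ⟨D1, D2, D3⟩ := hdig d Q hQ
  have := D1
  obtain ⟨μ, hμ⟩ : ∃ μ, μ = Measure.infinitePi fun _ : Lt d => ν := ⟨_, rfl⟩
  have hμp : IsProbabilityMeasure μ := by rw [hμ]; infer_instance
  have hb0 : ∀ k, 0 ≤ b k := fun k => (hN k).ker.h0
  obtain ⟨H, hH⟩ : ∃ H, H = 4 * (d : ℝ) + ∑' k, b k := ⟨_, rfl⟩
  have hH0 : 0 ≤ H := by
    rw [hH]
    have h1 : 0 ≤ ∑' k, b k := tsum_nonneg hb0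
    positivity
  have hH1 : 0 ≤ H + 1 := by linarith
  -- kernels
  have kn : ∀ n : ℕ, Ker H (tn A n) := fun n => by
    obtain ⟨R', hR'⟩ := A4 n
    refine ker_mono hR'.ker ?_
    rw [hH]
    have := hb.sum_le_tsum (Finset.range n) (fun k _ => hb0 k)
    linarith
  have kns : ∀ (n : ℕ) (X : Lt d), Ker H (fun y y' => tn A n (y + X) (y' + X)) := fun n X =>
    (heqv (Lt d) (Lt d) (Equiv.addRight X) (tn A n) H (kn n)).1
  obtain ⟨K, hK⟩ : ∃ K : ℕ → Lt d × (Lt d → ℝ) → Lt d → Lt d → ℝ,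
      K = fun n q y y' => tn A n (y + q.1) (y' + q.1) + dg q.2 y y' := ⟨_, rfl⟩
  have hKk : ∀ n q, Ker (H + 1) (K n q) := fun n q => by
    rw [hK]
    exact ((hop _ _ H (kns n q.1)).2.2.2.1 q.2).1
  have hKm : ∀ n y y', Measurable fun q => K n q y y' := fun n y y' => by
    rw [hK]
    refine Measurable.add ?_ ((dg_meas y y').comp measurable_snd)
    have h1 : Measurable fun X : Lt d => tn A n (y + X) (y' + X) := measurable_of_countable _
    exact h1.comp measurable_fst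
  have hBK : ∀ n y, Bd (fun q => Gr (Op (K n q)) z y y) (1 / z.im) (z.im / (H + 1 + ‖z‖) ^ 2) :=
    fun n y => bd_op hop hme hgr (K n) (H + 1) hH1 (hKk n) (hKm n) z hz y
  obtain ⟨F, hF⟩ : ∃ F : ℕ → Lt d → ℝ,
      F = fun n X => ∫ V, hu (Gr (Op (K n (X, V))) z 0 0) g ^ 2 ∂μ := ⟨_, rfl⟩
  -- periodicity
  have hper : ∀ n (X v : Lt d), F n (X + (pQ Q n : ℤ) • v) = F n X := by
    intro n X v
    obtain ⟨R', hR'⟩ := A4 n
    have h1 : ∀ V, K n (X + (pQ Q n : ℤ) • v, V) = K n (X, V) := by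
      intro V
      rw [hK]
      funext y y'
      simp only
      rw [← add_assoc, ← add_assoc, hR'.per]
    rw [hF]
    simp only [h1]
  -- the hypothesis
  have hhyp : ∀ n, ∫ ω, hu (Gr (Op (kN (N := pQ Q n) (tn A n) ω)) z 0 0) g ^ 2
      ∂(PO d (pQ Q n) ν) = ∫ h, F n (ph h) ∂(unif (Ph d (pQ Q n))) := by
    intro n
    have hN0 : 0 < pQ Q n := Finset.prod_pos fun k _ => hQ k
    have := (hsep d (pQ Q n) 0 ν hN0).1
    have h1 : ∀ ω : Om d (pQ Q n), kN (N := pQ Q n) (tn A n) ω = K n (ph ω.1, ω.2) := by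
      intro ω
      rw [hK]
      rfl
    have hm1 : Measurable fun ω : Om d (pQ Q n) => ((ph ω.1, ω.2) : Lt d × (Lt d → ℝ)) := by
      refine Measurable.prodMk ?_ measurable_snd
      have : Measurable fun h : Ph d (pQ Q n) => ph h := measurable_of_countable _
      exact this.comp measurable_fst
    have hI := ((hBK n 0).comp hm1).int2 hg ((unif (Ph d (pQ Q n))).prod μ)
    simp only [h1]
    unfold PO
    rw [← hμ, integral_prod _ hI, hF]
  -- the translation
  have htr : ∀ n (X : Lt d), ∫ V, hu (Gr (Op (K n (X, V))) z x x) g ^ 2 ∂μ = F n (X + x) := by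
    intro n X
    have h1 : ∀ V : Lt d → ℝ, Gr (Op (K n (X, V))) z x x =
        Gr (Op (K n (X + x, fun y => V (y + x)))) z 0 0 := by
      intro V
      have h2 := (heqv (Lt d) (Lt d) (Equiv.addRight x) (K n (X, V)) (H + 1) (hKk n _)).2 z 0 0
        hz.ne'
      have h3 : (fun a b => K n (X, V) ((Equiv.addRight x) a) ((Equiv.addRight x) b)) =
          K n (X + x, fun y => V (y + x)) := by
        funext a b
        rw [hK]
        simp only [Equiv.coe_addRight]
        rw [dg_shift, add_assoc, add_assoc, add_comm x X]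
      rw [h3] at h2
      simp only [Equiv.coe_addRight, zero_add] at h2
      exact h2.symm
    simp only [h1]
    have hs : Measurable fun V : Lt d → ℝ => fun y => V (y + x) :=
      measurable_pi_lambda _ fun a => measurable_pi_apply _
    have hmap : μ.map (fun V : Lt d → ℝ => fun y => V (y + x)) = μ := by
      rw [hμ]
      exact map_inj (fun y : Lt d => y + x) (fun a b h => add_right_cancel h) ν
    have hm2 : Measurable fun V : Lt d → ℝ => ((X + x, V) : Lt d × (Lt d → ℝ)) :=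
      Measurable.prodMk measurable_const measurable_id
    have h5 : F n (X + x) = ∫ V, hu (Gr (Op (K n (X + x, V))) z 0 0) g ^ 2
        ∂(μ.map (fun V : Lt d → ℝ => fun y => V (y + x))) := by
      rw [hmap, hF]
    rw [h5, integral_map hs.aemeasurable]
    exact ((hu_meas ((hBK n 0).comp hm2).me g).pow_const 2).aestronglyMeasurable
  -- the approximations
  have hmq : ∀ n, Measurable fun q : Hu d Q × (Lt d → ℝ) =>
      ((hd n q.1, q.2) : Lt d × (Lt d → ℝ)) := fun n =>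
    Measurable.prodMk ((D2 n).comp measurable_fst) measurable_snd
  have hBq : ∀ n, Bd (fun q : Hu d Q × (Lt d → ℝ) => Gr (Op (K n (hd n q.1, q.2))) z x x)
      (1 / z.im) (z.im / (H + 1 + ‖z‖) ^ 2) := fun n => (hBK n x).comp (hmq n)
  have hJ : ∀ n, ∫ q : Hu d Q × (Lt d → ℝ), hu (Gr (Op (K n (hd n q.1, q.2))) z x x) g ^ 2
      ∂((PH d Q).prod μ) = ∫ ω, hu (Gr (Op (kN (N := pQ Q n) (tn A n) ω)) z 0 0) g ^ 2
      ∂(PO d (pQ Q n) ν) := by
    intro n
    rw [integral_prod _ ((hBq n).int2 hg _)]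
    simp only [htr]
    rw [D3 n (F n) (hper n) x, hhyp]
  -- the limit
  obtain ⟨L, hL⟩ : ∃ L : Hu d Q × (Lt d → ℝ) → Lt d → Lt d → ℝ,
      L = fun q y y' => kf d y y' + tA A q.1 y y' + dg q.2 y y' := ⟨_, rfl⟩
  have hLk : ∀ q, Ker (H + 1) (L q) := fun q => by
    rw [hL]
    have h1 := A2 q.1
    rw [← hH] at h1
    exact ((hop _ _ H h1).2.2.2.1 q.2).1
  have hLm : ∀ y y', Measurable fun q => L q y y' := fun y y' => by
    rw [hL]
    refine Measurable.add (Measurable.add measurable_const ?_) ((dg_meas y y').comp measurable_snd)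
    exact (A3 y y').comp measurable_fst
  have hBL : Bd (fun q => Gr (Op (L q)) z x x) (1 / z.im) (z.im / (H + 1 + ‖z‖) ^ 2) :=
    bd_op hop hme hgr L (H + 1) hH1 hLk hLm z hz x
  have htail : Tendsto (fun n => (∑' k, b (n + k)) / z.im ^ 2) atTop (𝓝 0) := by
    have h1 := tendsto_sum_nat_add b
    have h2 : (fun n => ∑' k, b (n + k)) = fun i => ∑' k, b (k + i) := by
      funext n
      exact tsum_congr fun k => by rw [add_comm]
    rw [← h2] at h1
    simpa using h1.div_const (z.im ^ 2)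
  have hclose : ∀ n q, ‖Gr (Op (K n (hd n q.1, q.2))) z x x - Gr (Op (L q)) z x x‖ ≤
      (∑' k, b (n + k)) / z.im ^ 2 := by
    intro n q
    have r1 := (hop _ _ (H + 1) (hLk q)).2.2.1
    have r2 := (hop _ _ (H + 1) (hKk n (hd n q.1, q.2))).2.2.1
    have h3 : Ker (∑' k, b (n + k)) fun y y' => L q y y' - K n (hd n q.1, q.2) y y' := by
      have h4 := A5 q.1 n
      have h5 : (fun y y' => L q y y' - K n (hd n q.1, q.2) y y') = fun y y' =>
          kf d y y' + tA A q.1 y y' - tn A n (y + hd n q.1) (y' + hd n q.1) := by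
        funext y y'
        rw [hL, hK]
        simp only
        ring
      rw [h5]
      exact h4
    have h6 := (hop _ _ (H + 1) (hLk q)).2.2.2.2 _ (H + 1) _ (hKk n (hd n q.1, q.2)) h3
    have h7 := (hgr _ (Op (L q)) r1).2.2.2.2.2.1 (Op (K n (hd n q.1, q.2))) z x x r2 hz
    rw [norm_sub_rev]
    refine h7.trans ?_
    gcongr
  have hlim : ∀ q, Tendsto (fun n => hu (Gr (Op (K n (hd n q.1, q.2))) z x x) g ^ 2) atTop
      (𝓝 (hu (Gr (Op (L q)) z x x) g ^ 2)) := by
    intro q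
    have h1 : Tendsto (fun n => Gr (Op (K n (hd n q.1, q.2))) z x x) atTop
        (𝓝 (Gr (Op (L q)) z x x)) := by
      rw [tendsto_iff_norm_sub_tendsto_zero]
      exact squeeze_zero (fun _ => norm_nonneg _) (fun n => hclose n q) htail
    refine Tendsto.pow ?_ 2
    unfold hu
    refine Tendsto.div ((h1.sub_const g).norm.pow 2)
      (((Complex.continuous_im.tendsto _).comp h1).mul_const g.im) ?_
    exact (mul_pos (hBL.κ0.trans_le (hBL.κ q)) hg).ne'
  have hfin : Tendsto (fun n => ∫ q : Hu d Q × (Lt d → ℝ),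
      hu (Gr (Op (K n (hd n q.1, q.2))) z x x) g ^ 2 ∂((PH d Q).prod μ)) atTop
      (𝓝 (∫ q, hu (Gr (Op (L q)) z x x) g ^ 2 ∂((PH d Q).prod μ))) := by
    refine tendsto_integral_of_dominated_convergence
      (fun _ => ((1 / z.im + ‖g‖) ^ 2 / (z.im / (H + 1 + ‖z‖) ^ 2 * g.im)) ^ 2) (fun n => ?_)
      (integrable_const _) (fun n => ?_) (ae_of_all _ hlim)
    · exact ((hu_meas (hBq n).me g).pow_const 2).aestronglyMeasurable
    · exact ae_of_all _ fun q => (hBq n).sq_le hg q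
  have hres : ∫ q, hu (Gr (Op (L q)) z x x) g ^ 2 ∂((PH d Q).prod μ) ≤ e := by
    refine le_of_tendsto hfin ?_
    filter_upwards [hE] with n hn
    rw [hJ n]
    exact hn
  rw [hμ, hL] at hres
  exact hres

end Pool.Agent.H825.Y987
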